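import Pool.Agent.R136.Sync7

/-!
# MP_713645_co, Q1: descents and excedances on even permutations are strongly synchronised
-/

set_option autoImplicit false

namespace Pool.Agent.Results.MP_713645_co.EvenSync

open Pool.Agent.R136.Sync

theorem result : ∀ n : ℕ, 1 ≤ n → StronglySync (n - 1) (APlus n) (PP n) :=
  fun n hn => sync_AP n hn

end Pool.Agent.Results.MP_713645_co.EvenSync
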