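import Pool.Agent.R136.Sync7

/-!
# MP_713645_co, Q2: descents and excedances on odd permutations are strongly synchronised
-/

set_option autoImplicit false

namespace Pool.Agent.Results.MP_713645_co.OddSync

open Pool.Agent.R136.Sync

theorem result : ∀ n : ℕ, 1 ≤ n → StronglySync (n - 1) (AMinus n) (QQ n) :=
  fun n hn => sync_AQ n hn

end Pool.Agent.Results.MP_713645_co.OddSync
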